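import Pool.Agent.Helper92.Ru.GoalsV

/-! Packet V3 (Discr) of MP_d1d051_nt: discretisation of the local proximities. -/

set_option autoImplicit false

open NumberField MvPolynomial

namespace Pool.Agent.Helper11.Ru

open Pool.Agent.Helper92.Ru

section one

variable {k : Type} [Field k] [NumberField k] {T : Finset (FinitePlace k)} {d n q : ℕ}

/-- the discretised proximities -/
noncomputable def muP (Lam : ℕ) (c1 : ℝ) (P : Pt k T d n q) (v : SP k T) (i : Fin q) : ℕ :=
  ⌊(Lam : ℝ) * max (P.lam v i - c1) 0 / Real.log P.H⌋₊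

theorem sum_max_le {ι : Type} [Fintype ι] (f : ι → ℝ) (B c1 S : ℝ) (hB : 0 ≤ B)
    (hf : ∀ v, -B ≤ f v) (hS : 0 ≤ S) (hsum : ∑ v, f v ≤ S + B)
    (hc : ((Fintype.card ι : ℝ) + 1) * B ≤ c1) : ∑ v, max (f v - c1) 0 ≤ S := by
  classical
  have hc0 : 0 ≤ c1 := le_trans (by positivity) hc
  by_cases hall : ∀ v, f v ≤ c1
  · have : ∑ v, max (f v - c1) 0 = 0 := by
      apply Finset.sum_eq_zero
      intro v _
      exact max_eq_right (by linarith [hall v])
    rw [this]
    exact hS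
  · push Not at hall
    obtain ⟨v0, hv0⟩ := hall
    have h1 : ∀ v, max (f v - c1) 0 ≤ f v + B := by
      intro v
      apply max_le
      · linarith
      · linarith [hf v]
    have h2 : max (f v0 - c1) 0 = f v0 - c1 := max_eq_left (by linarith)
    have h3 : ∑ v, max (f v - c1) 0 ≤ ∑ v, (f v + B) - (c1 + B) := by
      rw [← Finset.add_sum_erase _ _ (Finset.mem_univ v0),
        ← Finset.add_sum_erase Finset.univ (fun v => f v + B) (Finset.mem_univ v0), h2]
      have h4 : ∑ x ∈ Finset.univ.erase v0, max (f x - c1) 0 ≤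
          ∑ x ∈ Finset.univ.erase v0, (f x + B) := Finset.sum_le_sum fun v _ => h1 v
      linarith
    rw [Finset.sum_add_distrib] at h3
    simp only [Finset.sum_const, Finset.card_univ, nsmul_eq_mul] at h3
    linarith

end one

theorem discr (hBU : BadUnion) : Discr := by
  intro k _ _ T d n q a C Cf ε hd hn hε
  classical
  obtain ⟨s, hs⟩ : ∃ s : ℕ, s = Fintype.card (SP k T) := ⟨_, rfl⟩
  obtain ⟨Lam, hLam⟩ := exists_nat_ge ((2 * (s : ℝ) * q + 1) / ε)
  have hLam1 : 2 * (s : ℝ) * q + 1 ≤ Lam * ε := by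
    rwa [div_le_iff₀ hε] at hLam
  have hLam0 : (0 : ℝ) < Lam := by
    have h1 : (0 : ℝ) < Lam * ε := lt_of_lt_of_le (by positivity) hLam1
    exact (pos_iff_pos_of_mul_pos h1).2 hε
  refine ⟨Lam, by exact_mod_cast hLam0, ?_⟩
  intro 𝒬 hOK hbad
  obtain ⟨B, hB⟩ : ∃ B : ℝ, B = |C| := ⟨_, rfl⟩
  have hB0 : 0 ≤ B := hB ▸ abs_nonneg C
  have hCB : C ≤ B := hB ▸ le_abs_self C
  have hCB' : -C ≤ B := hB ▸ neg_le_abs C
  obtain ⟨c1, hc1⟩ : ∃ c1 : ℝ, c1 = ((s : ℝ) + 2) * (B + 1) := ⟨_, rfl⟩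
  have hc1B : B < c1 := by
    rw [hc1]
    have : (0 : ℝ) ≤ s := Nat.cast_nonneg s
    nlinarith
  have hc1' : ((s : ℝ) + 1) * B ≤ c1 := by
    rw [hc1]
    have : (0 : ℝ) ≤ s := Nat.cast_nonneg s
    nlinarith
  have hc10 : 0 < c1 := lt_of_le_of_lt hB0 hc1B
  obtain ⟨L1, hL1⟩ : ∃ L1 : ℝ, L1 = Lam * c1 := ⟨_, rfl⟩
  have hL10 : 0 < L1 := by rw [hL1]; positivity
  have hκ0 : (0 : ℝ) ≤ 2 * d * n + ε := by positivity
  -- properties of the discretised proximities
  have hlog : ∀ P ∈ 𝒬, 0 ≤ Real.log P.H := fun P hP => Real.log_nonneg (hOK P hP).H_one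
  have htot : ∀ P : Pt k T d n q, P.tot = ∑ i, ∑ v, P.lam v i := by
    intro P
    unfold Pt.tot
    exact Finset.sum_comm
  -- the three pieces
  let F3 : Fin 3 → Set (Pt k T d n q) := ![
    {P | P ∈ 𝒬 ∧ (2 * d * n + ε) * Real.log P.H < P.tot ∧ L1 ≤ Real.log P.H},
    {P | P ∈ 𝒬 ∧ P.tot ≤ (2 * d * n + ε) * Real.log P.H},
    {P | P ∈ 𝒬 ∧ Real.log P.H < L1}]
  have hcov : 𝒬 = ⋃ i, F3 i := by
    ext P
    simp only [Set.mem_iUnion, Fin.exists_fin_succ]
    constructor
    · intro hP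
      rcases le_or_gt P.tot ((2 * d * n + ε) * Real.log P.H) with h1 | h1
      · right; left; exact ⟨hP, h1⟩
      · rcases lt_or_ge (Real.log P.H) L1 with h2 | h2
        · right; right; left; exact ⟨hP, h2⟩
        · left; exact ⟨hP, h1, h2⟩
    · rintro (h | h | h | h)
      · exact h.1
      · exact h.1
      · exact h.1
      · obtain ⟨i, _⟩ := h
        exact i.elim0
  have hQ1 : Bad (2 * d * n + ε) (F3 0) := by
    obtain ⟨i, hi⟩ := hBU k T d n q (2 * d * n + ε) (Fin 3) F3 (hcov ▸ hbad)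
    fin_cases i
    · exact hi
    · exfalso
      obtain ⟨P, hP, hlt⟩ := hi 0
      have h1 : P.tot ≤ (2 * d * n + ε) * Real.log P.H := hP.2
      linarith
    · exfalso
      obtain ⟨P, hP, hlt⟩ := hi (q * (L1 + B))
      have hP1 : P ∈ 𝒬 := hP.1
      have hP2 : Real.log P.H < L1 := hP.2
      have h1 : P.tot ≤ q * (L1 + B) := by
        rw [htot]
        calc ∑ i, ∑ v, P.lam v i ≤ ∑ _i : Fin q, (L1 + B) := by
              apply Finset.sum_le_sum
              intro i _
              have := (hOK P hP1).lam_sum i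
              linarith
          _ = q * (L1 + B) := by
              rw [Finset.sum_const, Finset.card_univ, Fintype.card_fin, nsmul_eq_mul]
      have h2 := mul_nonneg hκ0 (hlog P hP1)
      linarith
  -- the discretisation
  have hmem : ∀ P ∈ F3 0, P ∈ 𝒬 ∧ (2 * d * n + ε) * Real.log P.H < P.tot ∧ L1 ≤ Real.log P.H :=
    fun P hP => hP
  have hsum : ∀ P ∈ F3 0, ∀ i, ∑ v, (muP Lam c1 P v i : ℝ) ≤ Lam := by
    intro P hP i
    obtain ⟨hP1, _, hP3⟩ := hmem P hP
    have hl : 0 < Real.log P.H := lt_of_lt_of_le hL10 hP3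
    have h1 : ∑ v, max (P.lam v i - c1) 0 ≤ Real.log P.H := by
      apply sum_max_le (fun v => P.lam v i) B c1 (Real.log P.H) hB0
      · intro v
        have := (hOK P hP1).lam_lb v i
        linarith
      · exact hl.le
      · have := (hOK P hP1).lam_sum i
        linarith
      · rw [← hs]; exact hc1'
    calc ∑ v, (muP Lam c1 P v i : ℝ)
        ≤ ∑ v, (Lam : ℝ) * max (P.lam v i - c1) 0 / Real.log P.H := by
          apply Finset.sum_le_sum
          intro v _
          exact Nat.floor_le (by positivity)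
      _ = Lam * (∑ v, max (P.lam v i - c1) 0) / Real.log P.H := by
          rw [Finset.mul_sum, Finset.sum_div]
      _ ≤ Lam := by
          rw [div_le_iff₀ hl]
          exact mul_le_mul_of_nonneg_left h1 hLam0.le
  have hle : ∀ P ∈ F3 0, ∀ v i, muP Lam c1 P v i ≤ Lam := by
    intro P hP v i
    have h1 := hsum P hP i
    have h2 : (muP Lam c1 P v i : ℝ) ≤ ∑ v, (muP Lam c1 P v i : ℝ) :=
      Finset.single_le_sum (f := fun v => (muP Lam c1 P v i : ℝ))
        (fun v _ => Nat.cast_nonneg _) (Finset.mem_univ v)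
    exact_mod_cast h2.trans h1
  let F : (SP k T → Fin q → Fin (Lam + 1)) → Set (Pt k T d n q) := fun μ =>
    {P | P ∈ F3 0 ∧ ∀ v i, muP Lam c1 P v i = μ v i}
  have hcov2 : F3 0 = ⋃ μ, F μ := by
    ext P
    simp only [Set.mem_iUnion]
    constructor
    · intro hP
      exact ⟨fun v i => ⟨muP Lam c1 P v i, Nat.lt_succ_of_le (hle P hP v i)⟩, hP,
        fun v i => rfl⟩
    · rintro ⟨μ, hP, _⟩
      exact hP
  obtain ⟨μ, hμ⟩ := hBU k T d n q (2 * d * n + ε) (SP k T → Fin q → Fin (Lam + 1)) F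
    (hcov2 ▸ hQ1)
  obtain ⟨P, ⟨hPF, hPμ⟩, _⟩ := hμ 0
  obtain ⟨hP1, hP2, hP3⟩ := hmem P hPF
  have hl : 0 < Real.log P.H := lt_of_lt_of_le hL10 hP3
  refine ⟨fun v i => (μ v i : ℕ), F μ, ?_, hμ, ?_, ?_, ?_, ?_⟩
  · rintro P' ⟨hP', _⟩
    exact (hmem P' hP').1
  · intro v
    apply (hOK P hP1).lam_few v
    intro i hi
    simp only [Finset.mem_filter, Finset.mem_univ, true_and] at hi
    rw [← hPμ v i] at hi
    by_contra hcon
    push Not at hcon
    apply hi
    unfold muP
    have : max (P.lam v i - c1) 0 = 0 := max_eq_right (by linarith)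
    rw [this]
    simp
  · intro i
    have h1 := hsum P hPF i
    have h2 : ((∑ v, (μ v i : ℕ) : ℕ) : ℝ) ≤ Lam := by
      push_cast
      calc ∑ v, ((μ v i : ℕ) : ℝ) = ∑ v, (muP Lam c1 P v i : ℝ) := by
            apply Finset.sum_congr rfl
            intro v _
            rw [hPμ v i]
        _ ≤ Lam := h1
    exact_mod_cast h2
  · have h1 : ∀ v i, (Lam : ℝ) * (P.lam v i - c1) / Real.log P.H - 1 ≤ ((μ v i : ℕ) : ℝ) := by
      intro v i
      rw [← hPμ v i]
      have h2 := Nat.lt_floor_add_one ((Lam : ℝ) * max (P.lam v i - c1) 0 / Real.log P.H)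
      have h3 : (Lam : ℝ) * (P.lam v i - c1) / Real.log P.H ≤
          (Lam : ℝ) * max (P.lam v i - c1) 0 / Real.log P.H := by
        apply div_le_div_of_nonneg_right _ hl.le
        exact mul_le_mul_of_nonneg_left (le_max_left _ _) hLam0.le
      unfold muP
      linarith
    have h4 : ∑ v : SP k T, ∑ i : Fin q, ((Lam : ℝ) * (P.lam v i - c1) / Real.log P.H - 1) =
        Lam * P.tot / Real.log P.H - s * q * (Lam * c1 / Real.log P.H + 1) := by
      have h5 : ∀ v : SP k T, ∑ i : Fin q, ((Lam : ℝ) * (P.lam v i - c1) / Real.log P.H - 1) =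
          Lam / Real.log P.H * (∑ i, P.lam v i) - q * (Lam * c1 / Real.log P.H + 1) := by
        intro v
        have h6 : ∀ i : Fin q, (Lam : ℝ) * (P.lam v i - c1) / Real.log P.H - 1 =
            Lam / Real.log P.H * P.lam v i - (Lam * c1 / Real.log P.H + 1) := by
          intro i
          ring
        simp_rw [h6]
        rw [Finset.sum_sub_distrib, ← Finset.mul_sum, Finset.sum_const, Finset.card_univ,
          Fintype.card_fin, nsmul_eq_mul]
      simp_rw [h5]
      rw [Finset.sum_sub_distrib, ← Finset.mul_sum]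
      simp only [Finset.sum_const, Finset.card_univ, nsmul_eq_mul, ← hs]
      unfold Pt.tot
      ring
    have h7 : (Lam : ℝ) * c1 / Real.log P.H ≤ 1 := by
      rw [div_le_one hl, ← hL1]
      exact hP3
    have h8 : (Lam : ℝ) * (2 * d * n + ε) ≤ Lam * P.tot / Real.log P.H := by
      rw [le_div_iff₀ hl]
      have := mul_le_mul_of_nonneg_left hP2.le hLam0.le
      linarith
    have h9 : (2 * (d * n) * Lam + 1 : ℝ) ≤ ∑ v, ∑ i, ((μ v i : ℕ) : ℝ) := by
      have h10 : ∑ v : SP k T, ∑ i : Fin q, ((Lam : ℝ) * (P.lam v i - c1) / Real.log P.H - 1) ≤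
          ∑ v, ∑ i, ((μ v i : ℕ) : ℝ) :=
        Finset.sum_le_sum fun v _ => Finset.sum_le_sum fun i _ => h1 v i
      rw [h4] at h10
      have h11 : (s : ℝ) * q * (Lam * c1 / Real.log P.H + 1) ≤ s * q * 2 := by
        apply mul_le_mul_of_nonneg_left _ (by positivity)
        linarith
      nlinarith
    have h12 : (((2 * (d * n) * Lam + 1 : ℕ)) : ℝ) ≤ ((∑ v, ∑ i, (μ v i : ℕ) : ℕ) : ℝ) := by
      push_cast
      exact h9
    exact_mod_cast h12
  · rintro P' ⟨hP'F, hP'μ⟩ v i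
    obtain ⟨hP'1, _, hP'3⟩ := hmem P' hP'F
    have hl' : 0 < Real.log P'.H := lt_of_lt_of_le hL10 hP'3
    show ((μ v i : ℕ) : ℝ) / Lam * Real.log P'.H ≤ P'.lam v i + C
    rw [← hP'μ v i]
    have h1 : (muP Lam c1 P' v i : ℝ) ≤ (Lam : ℝ) * max (P'.lam v i - c1) 0 / Real.log P'.H :=
      Nat.floor_le (by positivity)
    have h2 : (muP Lam c1 P' v i : ℝ) / Lam * Real.log P'.H ≤ max (P'.lam v i - c1) 0 := by
      rw [le_div_iff₀ hl'] at h1
      rw [div_mul_eq_mul_div, div_le_iff₀ hLam0]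
      linarith
    have h3 := (hOK P' hP'1).lam_lb v i
    refine h2.trans (max_le ?_ ?_)
    · linarith
    · linarith

end Pool.Agent.Helper11.Ru
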